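import Pool.Agent.Q184.Ultra.Core

/-!
# A normal group ideal without linearly ordered base

Let `G` be the group of the finitely supported functions `ℕ → 𝔽₂`, a dense subgroup of the compact
group `K` of all functions `ℕ → 𝔽₂`, and let `P` be the set of the functions in `K` that vanish on a set of
a free ultrafilter `p`, a subgroup of index two which contains `G`. The group ideal `I` consists of
the subsets of `G` whose closure in `K` is contained in `P`.

Two sets `A`, `B` outside `I` contain sequences `a n`, `b n` which converge to points `x`, `y` outside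
`P`. Then `x - y` is in `P`, so the set `M` of the differences `a n - b n` is in `I`, and the
sequence `a n` lies in `A ∩ (M + B)`. So no two unbounded sets are asymptotically disjoint, and the
ballean is normal. If `I` had a linearly ordered base, it would have a countable base, as `G` is
countable, and `P` would be a countable union of closed sets; this contradicts Baire's theorem.
-/

set_option autoImplicit false

open Set Pointwise

namespace Pool.Agent.Results.MP_405a2c_gt.UltranormalIdeal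

/-! ### balleans -/

section Ballean

variable {X : Type}

/-- `E[A]` -/
def ball (E : Set (X × X)) (A : Set X) : Set X := {y | ∃ x ∈ A, (x, y) ∈ E}

/-- `(X, 𝓔)` is a ballean: all `E` in `𝓔` contain the diagonal, each `E ∘ F⁻¹` is contained in an
element of `𝓔`, and the union of `𝓔` is `X × X`. -/
structure IsBallean (𝓔 : Set (Set (X × X))) : Prop where
  refl : ∀ E ∈ 𝓔, ∀ x, (x, x) ∈ E
  comp : ∀ E ∈ 𝓔, ∀ F ∈ 𝓔, ∃ D ∈ 𝓔, ∀ x y z, (x, y) ∈ E → (z, y) ∈ F → (x, z) ∈ D
  cover : ∀ x y, ∃ E ∈ 𝓔, (x, y) ∈ E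

/-- bounded sets -/
def Bounded (𝓔 : Set (Set (X × X))) (B : Set X) : Prop := ∃ E ∈ 𝓔, ∃ x, B ⊆ ball E {x}

/-- asymptotically disjoint sets -/
def AsympDisjoint (𝓔 : Set (Set (X × X))) (A B : Set X) : Prop :=
  ∀ E ∈ 𝓔, Bounded 𝓔 (ball E A ∩ ball E B)

/-- `U` is an asymptotic neighbourhood of `A` -/
def AsympNbhd (𝓔 : Set (Set (X × X))) (U A : Set X) : Prop := ∀ E ∈ 𝓔, Bounded 𝓔 (ball E A \ U)

/-- the ballean is normal: asymptotically disjoint sets have disjoint asymptotic neighbourhoods -/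
def Normal (𝓔 : Set (Set (X × X))) : Prop :=
  ∀ A B : Set X, AsympDisjoint 𝓔 A B →
    ∃ U V : Set X, AsympNbhd 𝓔 U A ∧ AsympNbhd 𝓔 V B ∧ Disjoint U V

end Ballean

/-! ### group ideals -/

section Ideal

variable {G : Type} [Group G]

/-- `I` is a group ideal on `G` -/
structure GroupIdeal (I : Set (Set G)) : Prop where
  union : ∀ A ∈ I, ∀ B ∈ I, A ∪ B ∈ I
  mono : ∀ A ∈ I, ∀ B ⊆ A, B ∈ I
  proper : univ ∉ I
  finite : ∀ A : Set G, A.Finite → A ∈ I
  div : ∀ A ∈ I, ∀ B ∈ I, A * B⁻¹ ∈ I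

/-- the entourage `{(x, y) : y ∈ A x ∪ {x}}` -/
def ent (A : Set G) : Set (G × G) := {q | q.2 ∈ A * {q.1} ∪ {q.1}}

/-- the entourages of the group ideal -/
def ents (I : Set (Set G)) : Set (Set (G × G)) := ent '' I

/-- `I` has a base which is linearly ordered by inclusion -/
def HasLinearBase (I : Set (Set G)) : Prop :=
  ∃ 𝓑 ⊆ I, (∀ A ∈ I, ∃ B ∈ 𝓑, A ⊆ B) ∧ IsChain (· ⊆ ·) 𝓑

theorem mem_ent {A : Set G} {x y : G} : (x, y) ∈ ent A ↔ (∃ a ∈ A, a * x = y) ∨ y = x := by
  show y ∈ A * {x} ∪ {x} ↔ _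
  rw [mem_union, mem_mul]
  constructor
  · rintro (⟨a, ha, z, hz, h⟩ | h)
    · have h1 : z = x := hz
      subst h1
      exact Or.inl ⟨a, ha, h⟩
    · exact Or.inr h
  · rintro (⟨a, ha, h⟩ | h)
    · exact Or.inl ⟨a, ha, x, rfl, h⟩
    · exact Or.inr h

variable {I : Set (Set G)}

theorem inv_mem (h : GroupIdeal I) {A : Set G} (hA : A ∈ I) : A⁻¹ ∈ I := by
  have h1 := h.div {1} (h.finite _ (finite_singleton 1)) A hA
  refine h.mono _ h1 _ fun x hx => ⟨1, rfl, x, hx, one_mul x⟩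

theorem mul_mem (h : GroupIdeal I) {A B : Set G} (hA : A ∈ I) (hB : B ∈ I) : A * B ∈ I := by
  have h1 := h.div A hA B⁻¹ (inv_mem h hB)
  rwa [inv_inv] at h1

theorem ball_mem (h : GroupIdeal I) {A B : Set G} (hA : A ∈ I) (hB : B ∈ I) :
    ball (ent A) B ∈ I := by
  refine h.mono _ (h.union _ (mul_mem h hA hB) _ hB) _ ?_
  rintro y ⟨x, hx, hxy⟩
  rcases mem_ent.1 hxy with ⟨a, ha, rfl⟩ | rfl
  · exact Or.inl ⟨a, ha, x, hx, rfl⟩
  · exact Or.inr hx

/-- the bounded sets are the elements of the group ideal -/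
theorem bounded_iff (h : GroupIdeal I) (A : Set G) : Bounded (ents I) A ↔ A ∈ I := by
  constructor
  · rintro ⟨_, ⟨M, hM, rfl⟩, x, hA⟩
    exact h.mono _ (ball_mem h hM (h.finite {x} (finite_singleton x))) _ hA
  · intro hA
    refine ⟨ent A, ⟨A, hA, rfl⟩, 1, fun x hx => ⟨1, rfl, ?_⟩⟩
    exact mem_ent.2 (Or.inl ⟨x, hx, mul_one x⟩)

theorem isBallean (h : GroupIdeal I) : IsBallean (ents I) where
  refl := by
    rintro _ ⟨A, -, rfl⟩ x
    exact mem_ent.2 (Or.inr rfl)
  comp := by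
    rintro _ ⟨A, hA, rfl⟩ _ ⟨B, hB, rfl⟩
    have hA1 : insert 1 A ∈ I := h.union {1} (h.finite _ (finite_singleton 1)) A hA
    have hB1 : insert 1 B ∈ I := h.union {1} (h.finite _ (finite_singleton 1)) B hB
    refine ⟨ent ((insert 1 B)⁻¹ * insert 1 A), ⟨_, mul_mem h (inv_mem h hB1) hA1, rfl⟩, ?_⟩
    intro x y z hxy hzy
    obtain ⟨a, ha, rfl⟩ : ∃ a ∈ insert 1 A, a * x = y := by
      rcases mem_ent.1 hxy with ⟨a, ha, hy⟩ | rfl
      · exact ⟨a, Or.inr ha, hy⟩
      · exact ⟨1, Or.inl rfl, one_mul _⟩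
    obtain ⟨b, hb, hbz⟩ : ∃ b ∈ insert 1 B, b * z = a * x := by
      rcases mem_ent.1 hzy with ⟨b, hb, hy⟩ | hy
      · exact ⟨b, Or.inr hb, hy⟩
      · exact ⟨1, Or.inl rfl, (one_mul z).trans hy.symm⟩
    refine mem_ent.2 (Or.inl ⟨b⁻¹ * a, ⟨b⁻¹, ?_, a, ha, rfl⟩, ?_⟩)
    · rw [mem_inv, inv_inv]
      exact hb
    · rw [mul_assoc, ← hbz, inv_mul_cancel_left]
  cover := by
    intro x y
    refine ⟨ent {y * x⁻¹}, ⟨_, h.finite _ (finite_singleton _), rfl⟩, ?_⟩
    exact mem_ent.2 (Or.inl ⟨y * x⁻¹, rfl, inv_mul_cancel_right y x⟩)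

end Ideal

/-- There are a countable abelian group `G` and a group ideal `I` on `G` such that the ballean
`(G, ents I)` is normal (in fact no two unbounded sets are asymptotically disjoint), but `I` has no
linearly ordered base. The bounded sets of the ballean are the elements of `I`. -/
theorem result : ∃ (G : Type) (_ : CommGroup G) (_ : Countable G) (I : Set (Set G)),
    GroupIdeal I ∧ IsBallean (ents I) ∧ (∀ A, Bounded (ents I) A ↔ A ∈ I) ∧
    Normal (ents I) ∧
    (∀ A B : Set G, AsympDisjoint (ents I) A B → Bounded (ents I) A ∨ Bounded (ents I) B) ∧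
    ¬ HasLinearBase I := by
  obtain ⟨p, hp⟩ : ∃ p : Ultrafilter ℕ, (p : Filter ℕ) ≤ Filter.cofinite :=
    ⟨Filter.hyperfilter ℕ, Filter.hyperfilter_le_cofinite⟩
  have hI : GroupIdeal (Q184.Ultra.I p) :=
    { union := fun A hA B hB => Q184.Ultra.I_union hA hB
      mono := fun A hA B h => Q184.Ultra.I_mono hA h
      proper := Q184.Ultra.I_proper
      finite := fun A hA => Q184.Ultra.I_finite hp hA
      div := fun A hA B hB => Q184.Ultra.I_div hA hB }
  have hultra : ∀ A B : Set Q184.Ultra.G, AsympDisjoint (ents (Q184.Ultra.I p)) A B →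
      A ∈ Q184.Ultra.I p ∨ B ∈ Q184.Ultra.I p := by
    intro A B hAB
    by_contra hcon
    push Not at hcon
    obtain ⟨M, hM, a, ha, hb, hr⟩ := Q184.Ultra.linked hp hcon.1 hcon.2
    apply hr
    refine hI.mono _ ((bounded_iff hI _).1 (hAB (ent M) ⟨M, hM, rfl⟩)) _ ?_
    rintro _ ⟨n, rfl⟩
    refine ⟨⟨a n, ha n, mem_ent.2 (Or.inr rfl)⟩, ?_⟩
    obtain ⟨m, hm, b, hbB, hmb⟩ := hb n
    exact ⟨b, hbB, mem_ent.2 (Or.inl ⟨m, hm, hmb⟩)⟩
  refine ⟨Q184.Ultra.G, inferInstance, inferInstance, Q184.Ultra.I p, hI, isBallean hI,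
    bounded_iff hI, ?_, ?_, ?_⟩
  · intro A B hAB
    rcases hultra A B hAB with hA | hB
    · refine ⟨∅, univ, ?_, ?_, disjoint_left.2 fun x hx _ => hx⟩
      · rintro _ ⟨M, hM, rfl⟩
        rw [bounded_iff hI, sdiff_empty]
        exact ball_mem hI hM hA
      · rintro E hE
        rw [bounded_iff hI, sdiff_univ]
        exact hI.finite _ finite_empty
    · refine ⟨univ, ∅, ?_, ?_, disjoint_left.2 fun x _ hx => hx⟩
      · rintro E hE
        rw [bounded_iff hI, sdiff_univ]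
        exact hI.finite _ finite_empty
      · rintro _ ⟨M, hM, rfl⟩
        rw [bounded_iff hI, sdiff_empty]
        exact ball_mem hI hM hB
  · intro A B hAB
    rw [bounded_iff hI, bounded_iff hI]
    exact hultra A B hAB
  · rintro ⟨𝓑, h𝓑, hbase, hchain⟩
    obtain ⟨e, he⟩ := exists_surjective_nat Q184.Ultra.G
    have h1 : ∀ n, ∃ B ∈ 𝓑, e n ∈ B := by
      intro n
      obtain ⟨B, hB, hs⟩ := hbase {e n} (hI.finite _ (finite_singleton _))
      exact ⟨B, hB, hs rfl⟩
    choose C hC hCe using h1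
    obtain ⟨A, hA, hAC⟩ := Q184.Ultra.no_countable hp C fun n => h𝓑 (hC n)
    obtain ⟨B, hB, hAB⟩ := hbase A hA
    apply hI.proper
    have h2 : B = univ := by
      rw [eq_univ_iff_forall]
      intro g
      obtain ⟨n, rfl⟩ := he g
      rcases hchain.total hB (hC n) with h | h
      · exact absurd (hAB.trans h) (hAC n)
      · exact h (hCe n)
    rw [← h2]
    exact h𝓑 hB

end Pool.Agent.Results.MP_405a2c_gt.UltranormalIdeal
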